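import Mathlib

/-!
NCK: sizes for which the theorem applies.
-/

set_option autoImplicit false

namespace Pool.Agent.NCK

theorem sum_exps (k j : ℕ) : ∑ l ∈ Finset.range j, (2 * k * 3 ^ l + 1) + k = k * 3 ^ j + j := by
  induction j with
  | zero => simp
  | succ j ih =>
    rw [Finset.sum_range_succ, pow_succ]
    linarith

theorem sizes_ok (n s k : ℕ) (j : Fin k) :
    n * (s ^ (k - j) * ∏ l ∈ Finset.Iio j, ((2 * n * s) ^ (2 * k * 3 ^ (l : ℕ)) + 1)) ^ 2 ≤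
      (2 * n * s) ^ (2 * k * 3 ^ (j : ℕ)) := by
  have hj := j.2
  rcases Nat.eq_zero_or_pos n with hn | hn
  · subst hn
    rw [Nat.zero_mul]
    exact Nat.zero_le _
  rcases Nat.eq_zero_or_pos s with hs | hs
  · subst hs
    rw [zero_pow (by omega), zero_mul, zero_pow (by norm_num), mul_zero]
    exact Nat.zero_le _
  have hZ2 : 2 ≤ 2 * n * s := by nlinarith [Nat.mul_pos hn hs]
  have hZ1 : 1 ≤ 2 * n * s := by omega
  have h1 : ∏ l ∈ Finset.Iio j, ((2 * n * s) ^ (2 * k * 3 ^ (l : ℕ)) + 1) ≤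
      (2 * n * s) ^ (∑ l ∈ Finset.range (j : ℕ), (2 * k * 3 ^ l + 1)) := by
    have h2 : ∏ l ∈ Finset.Iio j, ((2 * n * s) ^ (2 * k * 3 ^ (l : ℕ)) + 1) ≤
        ∏ l ∈ Finset.Iio j, (2 * n * s) ^ (2 * k * 3 ^ (l : ℕ) + 1) := by
      refine Finset.prod_le_prod (fun _ _ => Nat.zero_le _) fun l _ => ?_
      have h3 : 1 ≤ (2 * n * s) ^ (2 * k * 3 ^ (l : ℕ)) := Nat.one_le_pow _ _ hZ1
      rw [pow_succ]
      nlinarith
    refine h2.trans (le_of_eq ?_)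
    rw [Finset.prod_pow_eq_pow_sum]
    congr 1
    have h4 := Finset.sum_map (Finset.Iio j) Fin.valEmbedding fun l : ℕ => 2 * k * 3 ^ l + 1
    rw [Fin.map_valEmbedding_Iio] at h4
    rw [← Nat.Iio_eq_range, h4]
    rfl
  have h2 : n * (s ^ (k - j)) ^ 2 ≤ (2 * n * s) ^ (2 * (k - j)) := by
    rw [← pow_mul, mul_comm (k - (j : ℕ)) 2, mul_pow, mul_comm 2 n, mul_pow]
    have h3 : n ≤ n ^ (2 * (k - j)) := Nat.le_self_pow (by omega) n
    have h4 : 1 ≤ 2 ^ (2 * (k - j)) := Nat.one_le_two_pow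
    refine Nat.mul_le_mul_right _ ?_
    nlinarith
  calc n * (s ^ (k - j) * ∏ l ∈ Finset.Iio j, ((2 * n * s) ^ (2 * k * 3 ^ (l : ℕ)) + 1)) ^ 2
      = (n * (s ^ (k - j)) ^ 2) *
          (∏ l ∈ Finset.Iio j, ((2 * n * s) ^ (2 * k * 3 ^ (l : ℕ)) + 1)) ^ 2 := by ring
    _ ≤ (2 * n * s) ^ (2 * (k - j)) *
          ((2 * n * s) ^ (∑ l ∈ Finset.range (j : ℕ), (2 * k * 3 ^ l + 1))) ^ 2 :=
        Nat.mul_le_mul h2 (Nat.pow_le_pow_left h1 2)
    _ = (2 * n * s) ^ (2 * k * 3 ^ (j : ℕ)) := by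
        rw [← pow_mul, ← pow_add]
        congr 1
        have h5 := sum_exps k j
        have h6 : k - (j : ℕ) + j = k := Nat.sub_add_cancel hj.le
        have h7 : k * 3 ^ (j : ℕ) * 2 = 2 * k * 3 ^ (j : ℕ) := by ring
        omega

end Pool.Agent.NCK
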