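import Mathlib
import Pool.Agent.NCP.Mat

/-!
NCK: partially commutative polynomials (`k` classes of variables, variables of different classes
commute) and algebraic branching programs for them.
-/

set_option autoImplicit false

namespace Pool.Agent.NCK

open Pool.Agent.NCP

/-- The polynomials over `K` in `k` classes of `n` variables: the variables of one class do not
commute with each other, variables of different classes commute. The monomials are the `k`-tuples
of words. -/
abbrev PCA (K : Type*) [Field K] (n k : ℕ) := MonoidAlgebra K (Fin k → FreeMonoid (Fin n))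

section

variable (K : Type*) [Field K] {n k : ℕ}

/-- The variable `i` of the class `j`. -/
noncomputable def xv (j : Fin k) (i : Fin n) : PCA K n k :=
  MonoidAlgebra.single (Pi.mulSingle j (FreeMonoid.of i)) 1

/-- Affine linear forms. -/
def IsAff (f : PCA K n k) : Prop :=
  ∃ (c0 : K) (c : Fin k → Fin n → K), f = algebraMap K _ c0 + ∑ j, ∑ i, c j i • xv K j i

/-- Algebraic branching programs with `s` vertices. -/
def IsPABP (s : ℕ) (f : PCA K n k) : Prop :=
  ∃ (L : Matrix (Fin s) (Fin s) (PCA K n k)) (a b : Fin s),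
    (∀ i j, IsAff K (L i j)) ∧ (∀ i j, j ≤ i → L i j = 0) ∧
      f = (∑ l ∈ Finset.range s, L ^ l) a b

/-- The explicit point: the variable `i` of the class `j` is the Kronecker product of the matrix
`hyp K (M j) i` at the place `j` and of identity matrices at the other places. -/
noncomputable def kpt (M : Fin k → ℕ) (j : Fin k) (i : Fin n) :
    Matrix ((l : Fin k) → Fin (M l + 1)) ((l : Fin k) → Fin (M l + 1)) K :=
  Matrix.of fun p q => if ∀ l, l ≠ j → p l = q l then hyp K (M j) i (p j) (q j) else 0

/-- Kronecker products of representations of the free monoid. -/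
def kr {d : Fin k → ℕ} (r : (l : Fin k) → FreeMonoid (Fin n) →* Matrix (Fin (d l)) (Fin (d l)) K) :
    (Fin k → FreeMonoid (Fin n)) →* Matrix ((l : Fin k) → Fin (d l)) ((l : Fin k) → Fin (d l)) K where
  toFun w := Matrix.of fun p q => ∏ l, r l (w l) (p l) (q l)
  map_one' := by
    ext p q
    rw [Matrix.of_apply, Matrix.one_apply]
    by_cases h : p = q
    · subst h
      rw [if_pos rfl]
      refine Finset.prod_eq_one fun l _ => ?_
      rw [Pi.one_apply, map_one, Matrix.one_apply_eq]
    · rw [if_neg h]
      obtain ⟨l, hl⟩ := Function.ne_iff.1 h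
      refine Finset.prod_eq_zero (Finset.mem_univ l) ?_
      rw [Pi.one_apply, map_one, Matrix.one_apply_ne hl]
  map_mul' v w := by
    ext p q
    rw [Matrix.of_apply, Matrix.mul_apply]
    simp only [Matrix.of_apply, Pi.mul_apply, map_mul, Matrix.mul_apply]
    rw [Finset.prod_univ_sum]
    simp only [Fintype.piFinset_univ, Finset.prod_mul_distrib]

theorem kr_apply {d : Fin k → ℕ}
    (r : (l : Fin k) → FreeMonoid (Fin n) →* Matrix (Fin (d l)) (Fin (d l)) K)
    (w : Fin k → FreeMonoid (Fin n)) (p q : (l : Fin k) → Fin (d l)) :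
    kr K r w p q = ∏ l, r l (w l) (p l) (q l) := rfl

/-- The representation of the free monoid by the matrices `hyp K M i`. -/
noncomputable def hr (n M : ℕ) : FreeMonoid (Fin n) →* Matrix (Fin (M + 1)) (Fin (M + 1)) K :=
  FreeMonoid.lift (hyp K M)

/-- The value at the explicit point. -/
noncomputable def kev (M : Fin k → ℕ) :
    PCA K n k →ₐ[K] Matrix ((l : Fin k) → Fin (M l + 1)) ((l : Fin k) → Fin (M l + 1)) K :=
  MonoidAlgebra.lift K _ _ (kr K fun l => hr K n (M l))

theorem kev_xv (M : Fin k → ℕ) (j : Fin k) (i : Fin n) : kev K M (xv K j i) = kpt K M j i := by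
  rw [kev, xv, MonoidAlgebra.lift_single, one_smul]
  ext p q
  rw [kr_apply, kpt, Matrix.of_apply]
  rw [← Finset.mul_prod_erase _ _ (Finset.mem_univ j), Pi.mulSingle_eq_same]
  have h1 : hr K n (M j) (FreeMonoid.of i) = hyp K (M j) i := by
    rw [hr, FreeMonoid.lift_eval_of]
  rw [h1]
  split_ifs with h
  · rw [Finset.prod_eq_one, mul_one]
    intro l hl
    have hlj := Finset.ne_of_mem_erase hl
    rw [Pi.mulSingle_eq_of_ne hlj, map_one, h l hlj, Matrix.one_apply_eq]
  · push Not at h
    obtain ⟨l, hlj, hl⟩ := h
    rw [Finset.prod_eq_zero (Finset.mem_erase.2 ⟨hlj, Finset.mem_univ l⟩), mul_zero]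
    rw [Pi.mulSingle_eq_of_ne hlj, map_one, Matrix.one_apply_ne hl]

end

end Pool.Agent.NCK
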