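import Mathlib
import Pool.Agent.NCK.Defs

/-!
NCK: the words of a polynomial computed by a branching program are short.
-/

set_option autoImplicit false

namespace Pool.Agent.NCK

open Pool.Agent.NCP

variable {K : Type*} [Field K] {n k : ℕ}

/-- All words have length at most `d`. -/
def Dg (d : ℕ) (f : PCA K n k) : Prop := ∀ w ∈ f.coeff.support, ∀ l, (w l).length ≤ d

theorem dg_zero (d : ℕ) : Dg d (0 : PCA K n k) := by
  intro w hw
  rw [MonoidAlgebra.coeff_zero] at hw
  simp at hw

theorem dg_single (d : ℕ) (w : Fin k → FreeMonoid (Fin n)) (c : K) (h : ∀ l, (w l).length ≤ d) :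
    Dg d (MonoidAlgebra.single w c : PCA K n k) := by
  intro v hv
  rw [MonoidAlgebra.coeff_single] at hv
  have h1 := Finsupp.support_single_subset hv
  rw [Finset.mem_singleton] at h1
  rw [h1]
  exact h

theorem dg_add (d : ℕ) (f g : PCA K n k) (hf : Dg d f) (hg : Dg d g) : Dg d (f + g) := by
  classical
  intro w hw
  rw [MonoidAlgebra.coeff_add] at hw
  rcases Finset.mem_union.1 (Finsupp.support_add hw) with h | h
  · exact hf w h
  · exact hg w h

theorem dg_sum (d : ℕ) {ι : Type*} (t : Finset ι) (f : ι → PCA K n k) (hf : ∀ i ∈ t, Dg d (f i)) :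
    Dg d (∑ i ∈ t, f i) := by
  classical
  induction t using Finset.induction_on with
  | empty => rw [Finset.sum_empty]; exact dg_zero d
  | insert i t hi ih =>
    rw [Finset.sum_insert hi]
    exact dg_add d _ _ (hf i (Finset.mem_insert_self i t))
      (ih fun j hj => hf j (Finset.mem_insert_of_mem hj))

theorem dg_mul (a b : ℕ) (f g : PCA K n k) (hf : Dg a f) (hg : Dg b g) : Dg (a + b) (f * g) := by
  classical
  intro w hw l
  obtain ⟨u, hu, v, hv, rfl⟩ := Finset.mem_mul.1 (MonoidAlgebra.support_coeff_mul_subset f g hw)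
  rw [Pi.mul_apply, FreeMonoid.length_mul]
  exact Nat.add_le_add (hf u hu l) (hg v hv l)

theorem dg_smul (d : ℕ) (c : K) (f : PCA K n k) (hf : Dg d f) : Dg d (c • f) := by
  intro w hw
  rw [MonoidAlgebra.coeff_smul] at hw
  exact hf w (Finsupp.support_smul hw)

theorem dg_mono (a b : ℕ) (h : a ≤ b) (f : PCA K n k) (hf : Dg a f) : Dg b f :=
  fun w hw l => (hf w hw l).trans h

theorem dg_xv (j : Fin k) (i : Fin n) : Dg 1 (xv K j i) := by
  refine dg_single 1 _ _ fun l => ?_
  by_cases h : l = j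
  · subst h
    rw [Pi.mulSingle_eq_same, FreeMonoid.length_of]
  · rw [Pi.mulSingle_eq_of_ne h]
    simp

theorem dg_algebraMap (c : K) : Dg 0 (algebraMap K (PCA K n k) c) := by
  rw [MonoidAlgebra.coe_algebraMap, Function.comp_apply]
  refine dg_single 0 _ _ fun l => ?_
  simp

theorem dg_aff (f : PCA K n k) (hf : IsAff K f) : Dg 1 f := by
  obtain ⟨c0, c, rfl⟩ := hf
  refine dg_add 1 _ _ (dg_mono 0 1 zero_le_one _ (dg_algebraMap c0)) ?_
  exact dg_sum 1 _ _ fun j _ => dg_sum 1 _ _ fun i _ => dg_smul 1 _ _ (dg_xv j i)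

theorem dg_pow {s : ℕ} (L : Matrix (Fin s) (Fin s) (PCA K n k)) (hL : ∀ i j, IsAff K (L i j))
    (m : ℕ) : ∀ i j, Dg m ((L ^ m) i j) := by
  induction m with
  | zero =>
    intro i j
    rw [pow_zero, Matrix.one_apply]
    split_ifs with h
    · have := dg_algebraMap (n := n) (k := k) (1 : K)
      rwa [map_one] at this
    · exact dg_zero 0
  | succ m ih =>
    intro i j
    rw [pow_succ, Matrix.mul_apply]
    exact dg_sum _ _ _ fun l _ => dg_mul m 1 _ _ (ih i l) (dg_aff _ (hL l j))

theorem dg_abp (s : ℕ) (f : PCA K n k) (hf : IsPABP K s f) :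
    ∀ w ∈ f.coeff.support, ∀ l, (w l).length < s := by
  obtain ⟨L, a, b, h1, h2, rfl⟩ := hf
  have hs : 0 < s := lt_of_le_of_lt (Nat.zero_le _) a.2
  have h3 : Dg (s - 1) ((∑ l ∈ Finset.range s, L ^ l) a b) := by
    rw [Matrix.sum_apply]
    refine dg_sum _ _ _ fun l hl => ?_
    exact dg_mono l (s - 1) (by have := Finset.mem_range.1 hl; omega) _ (dg_pow L h1 l a b)
  intro w hw l
  have := h3 w hw l
  omega

end Pool.Agent.NCK
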