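import Mathlib
import Pool.Agent.NCP.Abp
import Pool.Agent.NCK.Defs

/-!
NCK: the image of a branching program under a homomorphism to matrices over the free algebra.
-/

set_option autoImplicit false

namespace Pool.Agent.NCK

open Pool.Agent.NCP

variable {K : Type*} [Field K] {n k : ℕ}

theorem affine_zero : IsAffine K (0 : FreeAlgebra K (Fin n)) :=
  ⟨0, fun _ => 0, by simp⟩

theorem affine_add (f g : FreeAlgebra K (Fin n)) (hf : IsAffine K f) (hg : IsAffine K g) :
    IsAffine K (f + g) := by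
  obtain ⟨a, c, rfl⟩ := hf
  obtain ⟨b, d, rfl⟩ := hg
  refine ⟨a + b, fun i => c i + d i, ?_⟩
  rw [map_add]
  simp only [add_smul, Finset.sum_add_distrib]
  abel

theorem affine_smul (a : K) (f : FreeAlgebra K (Fin n)) (hf : IsAffine K f) :
    IsAffine K (a • f) := by
  obtain ⟨b, c, rfl⟩ := hf
  refine ⟨a * b, fun i => a * c i, ?_⟩
  rw [smul_add, Finset.smul_sum]
  congr 1
  · rw [Algebra.smul_def, ← map_mul]
  · exact Finset.sum_congr rfl fun i _ => by rw [smul_smul]

theorem affine_sum {ι : Type*} (t : Finset ι) (f : ι → FreeAlgebra K (Fin n))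
    (hf : ∀ i ∈ t, IsAffine K (f i)) : IsAffine K (∑ i ∈ t, f i) := by
  classical
  induction t using Finset.induction_on with
  | empty => rw [Finset.sum_empty]; exact affine_zero
  | insert i t hi ih =>
    rw [Finset.sum_insert hi]
    exact affine_add _ _ (hf i (Finset.mem_insert_self i t))
      (ih fun j hj => hf j (Finset.mem_insert_of_mem hj))

theorem affine_algebraMap (a : K) : IsAffine K (algebraMap K (FreeAlgebra K (Fin n)) a) :=
  ⟨a, fun _ => 0, by simp⟩

variable {D : Type} [Fintype D] [DecidableEq D]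

theorem affine_image (Φ : PCA K n k →ₐ[K] Matrix D D (FreeAlgebra K (Fin n)))
    (hΦ : ∀ l i p q, IsAffine K (Φ (xv K l i) p q)) (f : PCA K n k) (hf : IsAff K f) (p q : D) :
    IsAffine K (Φ f p q) := by
  obtain ⟨c0, c, rfl⟩ := hf
  rw [map_add, AlgHom.commutes, Matrix.add_apply]
  refine affine_add _ _ ?_ ?_
  · rw [Matrix.algebraMap_matrix_apply]
    split_ifs
    · exact affine_algebraMap c0
    · exact affine_zero
  · rw [map_sum, Matrix.sum_apply]
    refine affine_sum _ _ fun l _ => ?_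
    rw [map_sum, Matrix.sum_apply]
    refine affine_sum _ _ fun i _ => ?_
    rw [map_smul, Matrix.smul_apply]
    exact affine_smul _ _ (hΦ l i p q)

theorem abp_image (Φ : PCA K n k →ₐ[K] Matrix D D (FreeAlgebra K (Fin n)))
    (hΦ : ∀ l i p q, IsAffine K (Φ (xv K l i) p q)) (s : ℕ) (f : PCA K n k) (hf : IsPABP K s f)
    (p q : D) : IsABP K (s * Fintype.card D) (Φ f p q) := by
  obtain ⟨L, a, b, h1, h2, rfl⟩ := hf
  let e : D ≃ Fin (Fintype.card D) := Fintype.equivFin D
  let ε : Fin s × D ≃ Fin (s * Fintype.card D) :=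
    (Equiv.prodCongr (Equiv.refl _) e).trans finProdFinEquiv
  let θ : Matrix (Fin s) (Fin s) (PCA K n k) →ₐ[K]
      Matrix (Fin (s * Fintype.card D)) (Fin (s * Fintype.card D)) (FreeAlgebra K (Fin n)) :=
    ((Matrix.reindexAlgEquiv K (FreeAlgebra K (Fin n)) ε).toAlgHom.comp
      (Matrix.compAlgEquiv (Fin s) D (FreeAlgebra K (Fin n)) K).toAlgHom).comp Φ.mapMatrix
  have hθ : ∀ (A : Matrix (Fin s) (Fin s) (PCA K n k)) (x y : Fin (s * Fintype.card D)),
      θ A x y = Φ (A (ε.symm x).1 (ε.symm y).1) (ε.symm x).2 (ε.symm y).2 := fun A x y => rfl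
  refine ⟨θ L, ε (a, p), ε (b, q), fun x y => ?_, fun x y hxy => ?_, ?_⟩
  · rw [hθ]
    exact affine_image Φ hΦ _ (h1 _ _) _ _
  · rw [hθ, h2, map_zero, Matrix.zero_apply]
    have h3 : ∀ z : Fin (s * Fintype.card D), ((ε.symm z).1 : ℕ) = (z : ℕ) / Fintype.card D :=
      fun z => rfl
    rw [Fin.le_def, h3, h3]
    exact Nat.div_le_div_right (Fin.le_def.1 hxy)
  · have hs : s ≤ s * Fintype.card D := by
      have : 0 < Fintype.card D := Fintype.card_pos_iff.2 ⟨p⟩
      exact Nat.le_mul_of_pos_right s this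
    have h4 : ∑ l ∈ Finset.range (s * Fintype.card D), L ^ l = ∑ l ∈ Finset.range s, L ^ l := by
      symm
      refine Finset.sum_subset (Finset.range_mono hs) fun l _ hl => ?_
      have hl' : s ≤ l := not_lt.1 fun h => hl (Finset.mem_range.2 h)
      ext i j
      rw [pow_tri L h2 l i j (by have := j.2; omega), Matrix.zero_apply]
    have h5 : ∑ l ∈ Finset.range (s * Fintype.card D), (θ L) ^ l =
        θ (∑ l ∈ Finset.range s, L ^ l) := by
      rw [← h4, map_sum]
      simp only [map_pow]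
    rw [h5, hθ, Equiv.symm_apply_apply, Equiv.symm_apply_apply]

end Pool.Agent.NCK
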