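import Mathlib
import Pool.Agent.NCK.Defs

/-!
NCK: matrix coefficients of the free monoid.
-/

set_option autoImplicit false

namespace Pool.Agent.NCK

open Pool.Agent.NCP

variable {K : Type*} [Field K] {n : ℕ}

/-- The function `ω` is a matrix coefficient of a representation of dimension at most `N`. -/
def MC (N : ℕ) (ω : FreeMonoid (Fin n) → K) : Prop :=
  ∃ (d : ℕ) (r : FreeMonoid (Fin n) →* Matrix (Fin d) (Fin d) K) (p q : Fin d),
    d ≤ N ∧ ∀ w, ω w = r w p q

theorem mc_hr (M : ℕ) (p q : Fin (M + 1)) : MC (M + 1) fun w => hr K n M w p q :=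
  ⟨M + 1, hr K n M, p, q, le_rfl, fun _ => rfl⟩

/-- The matrices of the representation on the suffixes of a word. -/
def sf (K : Type*) [Field K] (v : List (Fin n)) (i : Fin n) :
    Matrix (Fin (v.length + 1)) (Fin (v.length + 1)) K :=
  Matrix.of fun p q => if v.drop p = i :: v.drop q ∧ (q : ℕ) = p + 1 then 1 else 0

theorem sf_word (v : List (Fin n)) (w : List (Fin n)) (p q : Fin (v.length + 1)) :
    (w.map (sf K v)).prod p q =
      if v.drop p = w ++ v.drop q ∧ (q : ℕ) = p + w.length then 1 else 0 := by
  induction w generalizing p with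
  | nil =>
    rw [List.map_nil, List.prod_nil, Matrix.one_apply, List.nil_append, List.length_nil, add_zero]
    congr 1
    refine propext ⟨?_, ?_⟩
    · rintro rfl
      exact ⟨rfl, rfl⟩
    · rintro ⟨-, h⟩
      exact Fin.ext h.symm
  | cons i w ih =>
    rw [List.map_cons, List.prod_cons, Matrix.mul_apply]
    simp only [ih, sf, Matrix.of_apply]
    by_cases hp : (p : ℕ) < v.length
    · have hp1 : (p : ℕ) + 1 < v.length + 1 := by omega
      rw [Finset.sum_eq_single (⟨p + 1, hp1⟩ : Fin (v.length + 1))]
      · simp only [and_true]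
        rw [List.length_cons, List.cons_append]
        have hd : v.drop p = v[(p : ℕ)] :: v.drop (p + 1) := by
          rw [List.drop_eq_getElem_cons hp]
        rw [hd]
        by_cases h1 : v[(p : ℕ)] = i
        · subst h1
          rw [if_pos rfl, one_mul]
          congr 1
          refine propext ⟨?_, ?_⟩
          · rintro ⟨h1, h2⟩
            exact ⟨by rw [h1], by omega⟩
          · rintro ⟨h1, h2⟩
            exact ⟨(List.cons_injective h1), by omega⟩
        · have h3 : ∀ (t1 t2 : List (Fin n)), ¬ v[(p : ℕ)] :: t1 = i :: t2 := fun t1 t2 h2 =>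
            h1 (List.cons_eq_cons.1 h2).1
          rw [if_neg (h3 _ _), zero_mul, if_neg (fun h2 => h3 _ _ h2.1)]
      · intro r _ hr
        rw [if_neg, zero_mul]
        rintro ⟨-, h2⟩
        exact hr (Fin.ext h2)
      · intro h
        exact absurd (Finset.mem_univ _) h
    · have hp2 : (p : ℕ) = v.length := by have := p.2; omega
      rw [Finset.sum_eq_zero, if_neg]
      · rintro ⟨h1, h2⟩
        rw [List.length_cons] at h2
        have := q.2
        omega
      · intro r _
        rw [if_neg, zero_mul]
        rintro ⟨-, h2⟩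
        have := r.2
        omega

theorem mc_ind (v : FreeMonoid (Fin n)) :
    MC (v.length + 1) fun w => Set.indicator {v} (fun _ => (1 : K)) w := by
  refine ⟨v.length + 1, FreeMonoid.lift (sf K (FreeMonoid.toList v)), 0, Fin.last _, le_rfl,
    fun w => ?_⟩
  rw [FreeMonoid.lift_apply]
  refine Eq.trans ?_ (sf_word (K := K) (FreeMonoid.toList v) (FreeMonoid.toList w) 0
    (Fin.last _)).symm
  change Set.indicator {v} (fun _ => (1 : K)) w = _
  by_cases h : w = v
  · subst h
    rw [Set.indicator_of_mem (Set.mem_singleton w), if_pos]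
    simp
  · rw [Set.indicator_of_notMem (fun h2 => h (Set.mem_singleton_iff.1 h2)), if_neg]
    rintro ⟨h2, -⟩
    rw [Fin.val_last, List.drop_length, List.append_nil] at h2
    rw [Fin.val_zero, List.drop_zero] at h2
    exact h (FreeMonoid.toList.injective h2.symm)

end Pool.Agent.NCK
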