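import Mathlib
import Pool.Agent.NCK.Block
import Pool.Agent.NCK.Mc

/-!
NCK: one class of variables, the others replaced by matrix coefficients.
-/

set_option autoImplicit false

namespace Pool.Agent.NCK

open Pool.Agent.NCP

variable {K : Type*} [Field K] {n k : ℕ}

/-- The words in the free algebra. -/
noncomputable def fw (K : Type*) [Field K] (n : ℕ) : FreeMonoid (Fin n) →* FreeAlgebra K (Fin n) :=
  FreeMonoid.lift (FreeAlgebra.ι K)

theorem lift_fw (M : ℕ) (w : FreeMonoid (Fin n)) :
    FreeAlgebra.lift K (hyp K M) (fw K n w) = hr K n M w := by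
  have h1 : ((FreeAlgebra.lift K (hyp K M) : FreeAlgebra K (Fin n) →ₐ[K] _) :
      FreeAlgebra K (Fin n) →* _).comp (fw K n) = hr K n M := by
    refine FreeMonoid.hom_eq fun i => ?_
    rw [MonoidHom.comp_apply, fw, hr, FreeMonoid.lift_eval_of, FreeMonoid.lift_eval_of]
    exact FreeAlgebra.lift_ι_apply _ _
  exact DFunLike.congr_fun h1 w

/-- The homomorphism: the class `j` goes to the free algebra, the other classes to matrices. -/
noncomputable def phm (j : Fin k) {d : Fin k → ℕ}
    (r : (l : Fin k) → FreeMonoid (Fin n) →* Matrix (Fin (d l)) (Fin (d l)) K) :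
    (Fin k → FreeMonoid (Fin n)) →*
      Matrix ((l : Fin k) → Fin (d l)) ((l : Fin k) → Fin (d l)) (FreeAlgebra K (Fin n)) where
  toFun w := Matrix.of fun p q => kr K r w p q • fw K n (w j)
  map_one' := by
    ext p q
    rw [Matrix.of_apply, map_one, Pi.one_apply, map_one, Matrix.one_apply, Matrix.one_apply]
    split_ifs
    · rw [one_smul]
    · rw [zero_smul]
  map_mul' v w := by
    ext p q
    rw [Matrix.of_apply, Matrix.mul_apply, map_mul, Pi.mul_apply, map_mul, Matrix.mul_apply,
      Finset.sum_smul]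
    refine Finset.sum_congr rfl fun t _ => ?_
    rw [Matrix.of_apply, Matrix.of_apply, smul_mul_smul_comm]

theorem phm_apply (j : Fin k) {d : Fin k → ℕ}
    (r : (l : Fin k) → FreeMonoid (Fin n) →* Matrix (Fin (d l)) (Fin (d l)) K)
    (w : Fin k → FreeMonoid (Fin n)) (p q : (l : Fin k) → Fin (d l)) :
    phm j r w p q = kr K r w p q • fw K n (w j) := rfl

theorem phm_affine (j : Fin k) {d : Fin k → ℕ}
    (r : (l : Fin k) → FreeMonoid (Fin n) →* Matrix (Fin (d l)) (Fin (d l)) K) (l : Fin k)
    (i : Fin n) (p q : (l : Fin k) → Fin (d l)) :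
    IsAffine K (MonoidAlgebra.lift K _ _ (phm j r) (xv K l i) p q) := by
  rw [xv, MonoidAlgebra.lift_single, one_smul, phm_apply]
  refine affine_smul _ _ ?_
  by_cases h : j = l
  · subst h
    rw [Pi.mulSingle_eq_same, fw, FreeMonoid.lift_eval_of]
    refine ⟨0, Pi.single i 1, ?_⟩
    rw [map_zero, zero_add, Finset.sum_eq_single i]
    · rw [Pi.single_eq_same, one_smul]
    · intro b _ hb
      rw [Pi.single_eq_of_ne hb, zero_smul]
    · intro hi
      exact absurd (Finset.mem_univ i) hi
  · rw [Pi.mulSingle_eq_of_ne h, map_one]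
    have := affine_algebraMap (n := n) (1 : K)
    rwa [map_one] at this

theorem mc_one : MC 1 fun _ : FreeMonoid (Fin n) => (1 : K) :=
  ⟨1, 1, 0, 0, le_rfl, fun w => by rw [MonoidHom.one_apply, Matrix.one_apply_eq]⟩

/-- The polynomial in the variables of the class `j`. -/
noncomputable def slice (j : Fin k) (ω : Fin k → FreeMonoid (Fin n) → K) (f : PCA K n k) :
    FreeAlgebra K (Fin n) :=
  ∑ w ∈ f.coeff.support, (f.coeff w * ∏ l ∈ Finset.univ.erase j, ω l (w l)) • fw K n (w j)

theorem slice_hit [CharZero K] (j : Fin k) (ω : Fin k → FreeMonoid (Fin n) → K) (N : Fin k → ℕ)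
    (hω : ∀ l, l ≠ j → MC (N l) (ω l)) (s : ℕ) (f : PCA K n k) (hf : IsPABP K s f)
    (hg : slice j ω f ≠ 0) (M : ℕ) (hM : n * (s * ∏ l ∈ Finset.univ.erase j, N l) ^ 2 ≤ M) :
    ∃ m : Fin (M + 1), ∑ w ∈ f.coeff.support,
      f.coeff w * (∏ l ∈ Finset.univ.erase j, ω l (w l)) * hr K n M (w j) m 0 ≠ 0 := by
  have h1 : ∀ l, ∃ (d : ℕ) (r : FreeMonoid (Fin n) →* Matrix (Fin d) (Fin d) K) (p q : Fin d),
      d ≤ Function.update N j 1 l ∧ ∀ w, Function.update ω j (fun _ => 1) l w = r w p q := by
    intro l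
    by_cases h : l = j
    · subst h
      rw [Function.update_self, Function.update_self]
      exact mc_one
    · rw [Function.update_of_ne h, Function.update_of_ne h]
      exact hω l h
  choose d r p q hd hr' using h1
  have h2 : MonoidAlgebra.lift K _ _ (phm j r) f p q = slice j ω f := by
    rw [MonoidAlgebra.lift_apply, Finsupp.sum, Matrix.sum_apply, slice]
    refine Finset.sum_congr rfl fun w _ => ?_
    rw [Matrix.smul_apply, phm_apply, smul_smul, kr_apply]
    congr 2
    rw [← Finset.mul_prod_erase _ _ (Finset.mem_univ j), ← hr' j, Function.update_self, one_mul]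
    refine Finset.prod_congr rfl fun l hl => ?_
    rw [← hr' l, Function.update_of_ne (Finset.ne_of_mem_erase hl)]
  have h3 := abp_image _ (phm_affine j r) s f hf p q
  rw [h2] at h3
  have h4 : Fintype.card ((l : Fin k) → Fin (d l)) ≤ ∏ l ∈ Finset.univ.erase j, N l := by
    rw [Fintype.card_pi]
    simp only [Fintype.card_fin]
    refine (Finset.prod_le_prod (fun _ _ => Nat.zero_le _) fun l _ => hd l).trans ?_
    rw [← Finset.mul_prod_erase _ _ (Finset.mem_univ j), Function.update_self, one_mul]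
    refine le_of_eq (Finset.prod_congr rfl fun l hl => ?_)
    rw [Function.update_of_ne (Finset.ne_of_mem_erase hl)]
  obtain ⟨m, hm⟩ := abp_hit _ _ h3 hg M (le_trans (Nat.mul_le_mul_left _
    (Nat.pow_le_pow_left (Nat.mul_le_mul_left _ h4) 2)) hM)
  refine ⟨m, ?_⟩
  rw [slice, map_sum, Matrix.sum_apply] at hm
  simp only [map_smul, Matrix.smul_apply, lift_fw, smul_eq_mul] at hm
  exact hm

end Pool.Agent.NCK
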