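import Mathlib
import Pool.Agent.NCK.Phi
import Pool.Agent.NCK.Deg

/-!
NCK: a nonzero partially commutative polynomial with a small branching program does not vanish at
the explicit point.
-/

set_option autoImplicit false

namespace Pool.Agent.NCK

open Pool.Agent.NCP

variable {K : Type*} [Field K] {n k : ℕ}

theorem mc_mono (a b : ℕ) (h : a ≤ b) (ω : FreeMonoid (Fin n) → K) (hω : MC a ω) : MC b ω := by
  obtain ⟨d, r, p, q, hd, hr'⟩ := hω
  exact ⟨d, r, p, q, hd.trans h, hr'⟩

theorem mc_functional (N : ℕ) (ω : FreeMonoid (Fin n) → K) (hω : MC N ω) :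
    ∃ χ : FreeAlgebra K (Fin n) →ₗ[K] K, ∀ w, χ (fw K n w) = ω w := by
  obtain ⟨d, r, p, q, -, hr'⟩ := hω
  refine ⟨(Matrix.entryLinearMap K K p q).comp
    (FreeAlgebra.lift K fun i => r (FreeMonoid.of i)).toLinearMap, fun w => ?_⟩
  have h1 : ((FreeAlgebra.lift K (fun i => r (FreeMonoid.of i)) : FreeAlgebra K (Fin n) →ₐ[K] _) :
      FreeAlgebra K (Fin n) →* _).comp (fw K n) = r := by
    refine FreeMonoid.hom_eq fun i => ?_
    rw [MonoidHom.comp_apply, fw, FreeMonoid.lift_eval_of]
    exact FreeAlgebra.lift_ι_apply _ _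
  have h2 := DFunLike.congr_fun h1 w
  rw [LinearMap.comp_apply, Matrix.entryLinearMap_apply, hr', ← h2]
  rfl

/-- The functions after `j` steps. -/
noncomputable def om (K : Type*) [Field K] (M : Fin k → ℕ) (m : (l : Fin k) → Fin (M l + 1))
    (v : Fin k → FreeMonoid (Fin n)) (j : ℕ) (l : Fin k) (u : FreeMonoid (Fin n)) : K :=
  if (l : ℕ) < j then hr K n (M l) u (m l) 0 else Set.indicator {v l} (fun _ => (1 : K)) u

theorem prod_sizes (M : Fin k → ℕ) (s : ℕ) (J : Fin k) :
    s * ∏ l ∈ Finset.univ.erase J, (if (l : ℕ) < J then M l + 1 else s) =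
      s ^ (k - J) * ∏ l ∈ Finset.Iio J, (M l + 1) := by
  have h1 : Finset.univ.erase J = Finset.Iio J ∪ Finset.Ioi J := by
    ext l
    rw [Finset.mem_erase, Finset.mem_union, Finset.mem_Iio, Finset.mem_Ioi]
    constructor
    · rintro ⟨h, -⟩
      exact lt_or_gt_of_ne h
    · intro h
      exact ⟨by rcases h with h | h; exacts [h.ne, h.ne'], Finset.mem_univ l⟩
  have h2 : Disjoint (Finset.Iio J) (Finset.Ioi J) := by
    rw [Finset.disjoint_left]
    intro l h3 h4
    rw [Finset.mem_Iio] at h3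
    rw [Finset.mem_Ioi] at h4
    exact absurd h3 (not_lt.2 h4.le)
  rw [h1, Finset.prod_union h2]
  have h3 : ∏ l ∈ Finset.Iio J, (if (l : ℕ) < J then M l + 1 else s) =
      ∏ l ∈ Finset.Iio J, (M l + 1) := by
    refine Finset.prod_congr rfl fun l hl => ?_
    rw [Finset.mem_Iio] at hl
    rw [if_pos (Fin.lt_def.1 hl)]
  have h4 : ∏ l ∈ Finset.Ioi J, (if (l : ℕ) < J then M l + 1 else s) = s ^ (k - 1 - J) := by
    have h5 : ∏ l ∈ Finset.Ioi J, (if (l : ℕ) < J then M l + 1 else s) =
        ∏ l ∈ Finset.Ioi J, s := by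
      refine Finset.prod_congr rfl fun l hl => ?_
      rw [Finset.mem_Ioi] at hl
      rw [if_neg (not_lt.2 (Fin.le_def.1 hl.le))]
    rw [h5, Finset.prod_const, Fin.card_Ioi]
  rw [h3, h4]
  have h5 : k - (J : ℕ) = (k - 1 - J) + 1 := by have := J.2; omega
  rw [h5, pow_succ]
  ring

theorem stage [CharZero K] (M : Fin k → ℕ) (s : ℕ) (f : PCA K n k) (hf : IsPABP K s f)
    (hf0 : f ≠ 0)
    (hM : ∀ j : Fin k, n * (s ^ (k - j) * ∏ l ∈ Finset.Iio j, (M l + 1)) ^ 2 ≤ M j) (j : ℕ)
    (hj : j ≤ k) :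
    ∃ (m : (l : Fin k) → Fin (M l + 1)) (v : Fin k → FreeMonoid (Fin n)),
      (∀ l, (v l).length < s) ∧
      ∑ w ∈ f.coeff.support, f.coeff w * ∏ l, om K M m v j l (w l) ≠ 0 := by
  induction j with
  | zero =>
    have h1 : f.coeff ≠ 0 := fun h => hf0 (MonoidAlgebra.coeff_injective h)
    obtain ⟨v, hv⟩ := Finsupp.support_nonempty_iff.2 h1
    refine ⟨fun _ => 0, v, dg_abp s f hf v hv, ?_⟩
    rw [Finset.sum_eq_single v]
    · rw [Finset.prod_eq_one, mul_one]
      · exact Finsupp.mem_support_iff.1 hv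
      · intro l _
        rw [om, if_neg (Nat.not_lt_zero _), Set.indicator_of_mem (Set.mem_singleton _)]
    · intro w _ hw
      obtain ⟨l, hl⟩ := Function.ne_iff.1 hw
      rw [Finset.prod_eq_zero (Finset.mem_univ l), mul_zero]
      rw [om, if_neg (Nat.not_lt_zero _), Set.indicator_of_notMem]
      exact fun h => hl (Set.mem_singleton_iff.1 h)
    · intro h
      exact absurd hv h
  | succ j ih =>
    obtain ⟨m, v, hv, hsum⟩ := ih (by omega)
    let J : Fin k := ⟨j, by omega⟩
    have hmc : ∀ l : Fin k, MC (if (l : ℕ) < J then M l + 1 else s) (om K M m v j l) := by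
      intro l
      by_cases h : (l : ℕ) < j
      · have h1 : om K M m v j l = fun u => hr K n (M l) u (m l) 0 := by
          funext u
          rw [om, if_pos h]
        rw [h1, if_pos h]
        exact mc_hr _ _ _
      · have h1 : om K M m v j l = fun u => Set.indicator {v l} (fun _ => (1 : K)) u := by
          funext u
          rw [om, if_neg h]
        rw [h1, if_neg h]
        exact mc_mono _ _ (hv l) _ (mc_ind _)
    have hsl : slice J (om K M m v j) f ≠ 0 := by
      intro h0
      obtain ⟨χ, hχ⟩ := mc_functional _ _ (hmc J)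
      apply hsum
      have h1 := congrArg χ h0
      rw [map_zero, slice, map_sum] at h1
      rw [← h1]
      refine Finset.sum_congr rfl fun w _ => ?_
      rw [map_smul, hχ, smul_eq_mul, ← Finset.mul_prod_erase _ _ (Finset.mem_univ J)]
      ring
    obtain ⟨mJ, hmJ⟩ := slice_hit J (om K M m v j) _ (fun l _ => hmc l) s f hf hsl (M J) (by
      rw [prod_sizes]
      exact hM J)
    refine ⟨Function.update m J mJ, v, hv, ?_⟩
    refine fun h0 => hmJ ?_
    rw [← h0]
    refine Finset.sum_congr rfl fun w _ => ?_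
    rw [← Finset.mul_prod_erase _ _ (Finset.mem_univ J), mul_assoc]
    congr 1
    rw [mul_comm]
    congr 1
    · rw [om, if_pos (Nat.lt_succ_self j), Function.update_self]
    · refine Finset.prod_congr rfl fun l hl => ?_
      have hlJ := Finset.ne_of_mem_erase hl
      have hlj : (l : ℕ) ≠ j := fun h => hlJ (Fin.ext h)
      rw [om, om, Function.update_of_ne hlJ]
      by_cases h : (l : ℕ) < j
      · rw [if_pos h, if_pos (by omega)]
      · rw [if_neg h, if_neg (by omega)]

theorem pabp_hit [CharZero K] (M : Fin k → ℕ) (s : ℕ) (f : PCA K n k) (hf : IsPABP K s f)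
    (hf0 : f ≠ 0)
    (hM : ∀ j : Fin k, n * (s ^ (k - j) * ∏ l ∈ Finset.Iio j, (M l + 1)) ^ 2 ≤ M j) :
    kev K M f ≠ 0 := by
  obtain ⟨m, v, -, hsum⟩ := stage M s f hf hf0 hM k le_rfl
  intro h
  apply hsum
  have h1 : kev K M f m 0 = 0 := by rw [h]; rfl
  rw [kev, MonoidAlgebra.lift_apply, Finsupp.sum, Matrix.sum_apply] at h1
  rw [← h1]
  refine Finset.sum_congr rfl fun w _ => ?_
  rw [Matrix.smul_apply, kr_apply, smul_eq_mul]
  congr 1
  refine Finset.prod_congr rfl fun l _ => ?_
  rw [om, if_pos l.2]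
  rfl

end Pool.Agent.NCK
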